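import Mathlib

set_option autoImplicit false

namespace Pool.Agent.H.MP_4d2320_co

open Finset

variable {ι : Type*} [Fintype ι] [DecidableEq ι]

/-- A symmetric matrix `P` with `0 ≤ P ≤ 1`. -/
structure Contr (P : ι → ι → ℝ) : Prop where
  symm : ∀ i j, P i j = P j i
  nonneg : ∀ x : ι → ℝ, 0 ≤ ∑ i, ∑ j, P i j * (x i * x j)
  le_one : ∀ x : ι → ℝ, ∑ i, ∑ j, P i j * (x i * x j) ≤ ∑ i, x i ^ 2

omit [DecidableEq ι] in
/-- The min kernel inequality. -/
theorem minker (P : ι → ι → ℝ) (hP : ∀ x : ι → ℝ, 0 ≤ ∑ i, ∑ j, P i j * (x i * x j)) :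
    ∀ (N : ℕ) (a : ι → ℝ), (∀ i, 0 ≤ a i) → (univ.filter fun i => 0 < a i).card ≤ N →
      0 ≤ ∑ i, ∑ j, P i j * min (a i) (a j) := by
  intro N
  induction N with
  | zero =>
    intro a ha hN
    have h0 : ∀ i, a i = 0 := by
      intro i
      by_contra hne
      have hi : i ∈ univ.filter fun i => 0 < a i := by
        simp only [mem_filter, mem_univ, true_and]
        exact lt_of_le_of_ne (ha i) (Ne.symm hne)
      have : 0 < (univ.filter fun i => 0 < a i).card := card_pos.2 ⟨i, hi⟩
      omega
    simp [h0]
  | succ N ih =>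
    intro a ha hN
    by_cases hemp : (univ.filter fun i => 0 < a i).Nonempty
    · obtain ⟨i0, hi0, hmin⟩ := exists_min_image _ a hemp
      simp only [mem_filter, mem_univ, true_and] at hi0 hmin
      set t := a i0 with ht
      set a' : ι → ℝ := fun i => if 0 < a i then a i - t else 0 with ha'
      have ha'0 : ∀ i, 0 ≤ a' i := by
        intro i
        simp only [ha']
        split_ifs with h
        · linarith [hmin i h]
        · exact le_rfl
      have hcard : (univ.filter fun i => 0 < a' i).card ≤ N := by
        have hsub : (univ.filter fun i => 0 < a' i) ⊂ (univ.filter fun i => 0 < a i) := by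
          rw [Finset.ssubset_iff_of_subset]
          · refine ⟨i0, by simp [← ht, hi0], ?_⟩
            simp only [mem_filter, mem_univ, true_and, ha', ← ht, if_pos hi0, sub_self, lt_irrefl,
              not_false_iff]
          · intro i hi
            simp only [mem_filter, mem_univ, true_and] at hi ⊢
            by_contra hne
            simp only [ha', if_neg hne, lt_irrefl] at hi
        have := card_lt_card hsub
        omega
      have hdec : ∀ i j, min (a i) (a j) = t * ((if 0 < a i then 1 else 0) * (if 0 < a j then 1 else 0))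
          + min (a' i) (a' j) := by
        intro i j
        simp only [ha']
        by_cases hi : 0 < a i
        · by_cases hj : 0 < a j
          · simp only [if_pos hi, if_pos hj]
            rw [min_sub_sub_right]
            ring
          · have h0 : a j = 0 := le_antisymm (not_lt.1 hj) (ha j)
            simp only [if_pos hi, if_neg hj]
            rw [h0, min_eq_right hi.le, min_eq_right (by linarith [hmin i hi])]
            ring
        · have h0 : a i = 0 := le_antisymm (not_lt.1 hi) (ha i)
          simp only [if_neg hi]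
          rw [h0, min_eq_left (ha j)]
          by_cases hj : 0 < a j
          · simp only [if_pos hj]
            rw [min_eq_left (by linarith [hmin j hj])]
            ring
          · simp only [if_neg hj]
            simp
      have h1 := ih a' ha'0 hcard
      have h2 := hP (fun i => if 0 < a i then 1 else 0)
      have h3 : ∑ i, ∑ j, P i j * min (a i) (a j)
          = t * (∑ i, ∑ j, P i j * ((if 0 < a i then 1 else 0) * (if 0 < a j then 1 else 0)))
            + ∑ i, ∑ j, P i j * min (a' i) (a' j) := by
        rw [mul_sum, ← sum_add_distrib]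
        apply sum_congr rfl
        intro i _
        rw [mul_sum, ← sum_add_distrib]
        apply sum_congr rfl
        intro j _
        rw [hdec i j]
        ring
      rw [h3]
      have := mul_nonneg hi0.le h2
      linarith
    · have h0 : ∀ i, a i = 0 := by
        intro i
        by_contra hne
        exact hemp ⟨i, by
          simp only [mem_filter, mem_univ, true_and]
          exact lt_of_le_of_ne (ha i) (Ne.symm hne)⟩
      simp [h0]

theorem pair_aux {x y p : ℝ} (hy0 : 0 ≤ y) (hyx : y ≤ x) (hx1 : x ≤ 1) (hp : x = 1 → p = 0) :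
    max 0 (x + y - 1 - 2 * p) ≤ x * y - 2 * (p * y) + p ^ 2 + p ^ 2 * ((x - y) / (1 - x)) := by
  have hR : 0 ≤ p ^ 2 * ((x - y) / (1 - x)) :=
    mul_nonneg (sq_nonneg p) (div_nonneg (by linarith) (by linarith))
  apply max_le
  · nlinarith [sq_nonneg (p - y), mul_nonneg hy0 (sub_nonneg.2 hyx)]
  · rcases eq_or_lt_of_le hx1 with h | h
    · have := hp h
      subst h
      subst this
      simp
    · have h1 : 0 < 1 - x := by linarith
      have e : x * y - 2 * (p * y) + p ^ 2 + p ^ 2 * ((x - y) / (1 - x)) - (x + y - 1 - 2 * p)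
          = (1 - y) / (1 - x) * (1 - x + p) ^ 2 := by
        field_simp
        ring
      have h2 : 0 ≤ (1 - y) / (1 - x) * (1 - x + p) ^ 2 :=
        mul_nonneg (div_nonneg (by linarith) h1.le) (sq_nonneg _)
      linarith

theorem pair_ineq {x y p : ℝ} (hx0 : 0 ≤ x) (hy0 : 0 ≤ y) (hx1 : x ≤ 1) (hy1 : y ≤ 1)
    (hpx : x = 1 → p = 0) (hpy : y = 1 → p = 0) :
    max 0 (x + y - 1 - 2 * p) ≤ x * y - 2 * (p * min x y) + p ^ 2
      + (p ^ 2 * (max 0 (x - y) / (1 - x)) + p ^ 2 * (max 0 (y - x) / (1 - y))) := by
  rcases le_total y x with h | h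
  · have := pair_aux hy0 h hx1 hpx
    rw [min_eq_right h, max_eq_right (sub_nonneg.2 h), max_eq_left (sub_nonpos.2 h)]
    simp only [zero_div, mul_zero, add_zero]
    exact this
  · have := pair_aux hx0 h hy1 hpy
    rw [min_eq_left h, max_eq_right (sub_nonneg.2 h), max_eq_left (sub_nonpos.2 h)]
    simp only [zero_div, mul_zero, zero_add]
    have e : max 0 (x + y - 1 - 2 * p) = max 0 (y + x - 1 - 2 * p) := by rw [add_comm x y]
    rw [e]
    linarith

namespace Contr

variable {P : ι → ι → ℝ}

theorem quad_single (P : ι → ι → ℝ) (i : ι) :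
    ∑ a, ∑ b, P a b * ((if a = i then (1 : ℝ) else 0) * (if b = i then 1 else 0)) = P i i := by
  rw [sum_eq_single i]
  · rw [sum_eq_single i]
    · simp
    · intro b _ hb; simp [hb]
    · intro h; exact absurd (mem_univ i) h
  · intro a _ ha
    apply sum_eq_zero
    intro b _
    simp [ha]
  · intro h; exact absurd (mem_univ i) h

theorem diag_nonneg (h : Contr P) (i : ι) : 0 ≤ P i i := by
  have := h.nonneg (fun a => if a = i then 1 else 0)
  rwa [quad_single] at this

theorem diag_le_one (h : Contr P) (i : ι) : P i i ≤ 1 := by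
  have := h.le_one (fun a => if a = i then 1 else 0)
  rw [quad_single] at this
  simpa using this

/-- `(P^2)_{ii} ≤ P_{ii}`. -/
theorem row_sq (h : Contr P) (i : ι) : ∑ j, P i j ^ 2 ≤ P i i := by
  have h1 := h.le_one (fun a => P i a)
  have h2 := h.nonneg (fun a => (if a = i then (1 : ℝ) else 0) - P i a)
  have e : ∑ a, ∑ b, P a b * (((if a = i then (1 : ℝ) else 0) - P i a) * ((if b = i then (1 : ℝ) else 0) - P i b))
      = P i i - 2 * ∑ j, P i j ^ 2 + ∑ a, ∑ b, P a b * (P i a * P i b) := by
    have e1 : ∀ a b, P a b * (((if a = i then (1 : ℝ) else 0) - P i a) * ((if b = i then (1 : ℝ) else 0) - P i b))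
        = P a b * ((if a = i then (1 : ℝ) else 0) * (if b = i then (1 : ℝ) else 0))
          - (if a = i then P a b * P i b else 0) - (if b = i then P a b * P i a else 0)
          + P a b * (P i a * P i b) := by
      intro a b
      split_ifs <;> ring
    simp only [e1]
    simp only [sum_add_distrib, sum_sub_distrib]
    rw [quad_single]
    have e2 : ∑ a, ∑ b, (if a = i then P a b * P i b else 0) = ∑ j, P i j ^ 2 := by
      rw [sum_eq_single i]
      · apply sum_congr rfl
        intro b _
        simp [pow_two]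
      · intro a _ ha
        apply sum_eq_zero
        intro b _
        simp [ha]
      · intro h; exact absurd (mem_univ i) h
    have e3 : ∑ a, ∑ b, (if b = i then P a b * P i a else 0) = ∑ j, P i j ^ 2 := by
      apply sum_congr rfl
      intro a _
      rw [sum_eq_single i]
      · simp only [if_true]
        rw [h.symm a i, pow_two]
      · intro b _ hb; simp [hb]
      · intro h; exact absurd (mem_univ i) h
    rw [e2, e3]
    ring
  rw [e] at h2
  linarith

theorem off_sq (h : Contr P) (i : ι) : ∑ j, (if j = i then 0 else P i j ^ 2) ≤ P i i * (1 - P i i) := by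
  have h1 := h.row_sq i
  have e : ∑ j, P i j ^ 2 = P i i ^ 2 + ∑ j, (if j = i then 0 else P i j ^ 2) := by
    rw [← Finset.add_sum_erase _ _ (mem_univ i)]
    congr 1
    rw [← Finset.add_sum_erase _ (fun j => if j = i then 0 else P i j ^ 2) (mem_univ i)]
    simp only [if_true, zero_add]
    apply sum_congr rfl
    intro j hj
    rw [if_neg (ne_of_mem_erase hj)]
  rw [e] at h1
  nlinarith

theorem eq_zero_of_diag (h : Contr P) {i j : ι} (hij : j ≠ i) (hi : P i i = 1) : P i j = 0 := by
  have h1 := h.off_sq i
  rw [hi] at h1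
  simp only [sub_self, mul_zero] at h1
  have h2 : ∀ k ∈ (univ : Finset ι), 0 ≤ (if k = i then 0 else P i k ^ 2) := by
    intro k _
    split_ifs
    · exact le_rfl
    · positivity
  have h3 := (sum_eq_zero_iff_of_nonneg h2).1 (le_antisymm h1 (sum_nonneg h2)) j (mem_univ j)
  rw [if_neg hij] at h3
  exact pow_eq_zero_iff (two_ne_zero) |>.1 h3

theorem pair (h : Contr P) (i j : ι) : max 0 (P i i + P j j - 1 - 2 * P i j) ≤
    P i i * P j j - 2 * (P i j * min (P i i) (P j j)) + P i j ^ 2
      + (P i j ^ 2 * (max 0 (P i i - P j j) / (1 - P i i))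
        + P i j ^ 2 * (max 0 (P j j - P i i) / (1 - P j j))) := by
  by_cases hij : j = i
  · subst hij
    have e : P j j + P j j - 1 - 2 * P j j = -1 := by ring
    rw [e, min_self, sub_self, max_self]
    simp only [zero_div, mul_zero, add_zero]
    rw [max_eq_left (by norm_num)]
    nlinarith
  · apply pair_ineq (h.diag_nonneg i) (h.diag_nonneg j) (h.diag_le_one i) (h.diag_le_one j)
    · exact fun hi => h.eq_zero_of_diag hij hi
    · intro hj
      rw [h.symm]
      exact h.eq_zero_of_diag (Ne.symm hij) hj

theorem row_R (h : Contr P) (i : ι) :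
    ∑ j, P i j ^ 2 * (max 0 (P i i - P j j) / (1 - P i i)) ≤ P i i ^ 2 := by
  have h0 := h.diag_nonneg i
  have h1 := h.diag_le_one i
  rcases eq_or_lt_of_le h1 with he | hlt
  · simp only [he, sub_self, div_zero, mul_zero, sum_const_zero]
    norm_num
  · have hpos : 0 < 1 - P i i := by linarith
    have hle : ∀ j ∈ (univ : Finset ι), P i j ^ 2 * (max 0 (P i i - P j j) / (1 - P i i))
        ≤ (P i i / (1 - P i i)) * (if j = i then 0 else P i j ^ 2) := by
      intro j _
      by_cases hj : j = i
      · subst hj
        simp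
      · rw [if_neg hj]
        have h2 : max 0 (P i i - P j j) ≤ P i i := max_le h0 (by linarith [h.diag_nonneg j])
        rw [mul_comm (P i i / (1 - P i i))]
        apply mul_le_mul_of_nonneg_left _ (sq_nonneg _)
        exact div_le_div_of_nonneg_right h2 hpos.le
    refine (sum_le_sum hle).trans ?_
    rw [← mul_sum]
    have h3 := h.off_sq i
    have h4 : P i i / (1 - P i i) * ∑ j, (if j = i then 0 else P i j ^ 2)
        ≤ P i i / (1 - P i i) * (P i i * (1 - P i i)) :=
      mul_le_mul_of_nonneg_left h3 (div_nonneg h0 hpos.le)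
    refine h4.trans (le_of_eq ?_)
    field_simp

/-- The main inequality, over ordered pairs. -/
theorem main (h : Contr P) : ∑ i, ∑ j, max 0 (P i i + P j j - 1 - 2 * P i j) ≤
    (∑ i, P i i) ^ 2 + (∑ i, P i i) + 2 * ∑ i, P i i ^ 2 := by
  have hsum : ∑ i, ∑ j, max 0 (P i i + P j j - 1 - 2 * P i j) ≤
      ∑ i, ∑ j, (P i i * P j j - 2 * (P i j * min (P i i) (P j j)) + P i j ^ 2
      + (P i j ^ 2 * (max 0 (P i i - P j j) / (1 - P i i))
        + P i j ^ 2 * (max 0 (P j j - P i i) / (1 - P j j)))) :=
    sum_le_sum fun i _ => sum_le_sum fun j _ => h.pair i j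
  refine hsum.trans ?_
  simp only [sum_add_distrib, sum_sub_distrib]
  have e1 : ∑ i, ∑ j, P i i * P j j = (∑ i, P i i) ^ 2 := by
    rw [pow_two, sum_mul_sum]
  have e2 : 0 ≤ ∑ i, ∑ j, 2 * (P i j * min (P i i) (P j j)) := by
    have := minker P h.nonneg _ (fun i => P i i) (fun i => h.diag_nonneg i) le_rfl
    simp only [← mul_sum]
    linarith
  have e3 : ∑ i, ∑ j, P i j ^ 2 ≤ ∑ i, P i i := sum_le_sum fun i _ => h.row_sq i
  have e4 : ∑ i, ∑ j, P i j ^ 2 * (max 0 (P i i - P j j) / (1 - P i i)) ≤ ∑ i, P i i ^ 2 :=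
    sum_le_sum fun i _ => h.row_R i
  have e5 : ∑ i, ∑ j, P i j ^ 2 * (max 0 (P j j - P i i) / (1 - P j j)) ≤ ∑ i, P i i ^ 2 := by
    rw [sum_comm]
    refine le_trans (le_of_eq ?_) e4
    apply sum_congr rfl
    intro j _
    apply sum_congr rfl
    intro i _
    rw [h.symm i j]
  linarith

/-- The main inequality in terms of the trace. -/
theorem main' (h : Contr P) : ∑ i, ∑ j, max 0 (P i i + P j j - 1 - 2 * P i j) ≤
    (∑ i, P i i) ^ 2 + 3 * (∑ i, P i i) := by
  have h1 := h.main
  have h2 : ∑ i, P i i ^ 2 ≤ ∑ i, P i i := by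
    apply sum_le_sum
    intro i _
    have a := h.diag_nonneg i
    have b := h.diag_le_one i
    nlinarith
  linarith

end Contr

end Pool.Agent.H.MP_4d2320_co
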