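import Mathlib

set_option autoImplicit false

namespace Pool.Agent.H.MP_4d2320_co

open Finset

/-- Fractional knapsack: weights `c ∈ [0,1]` of total at most `N` select at most the `N` largest. -/
theorem knap {κ : Type*} [DecidableEq κ] (U : Finset κ) (A c : κ → ℝ) (hA : ∀ p ∈ U, 0 ≤ A p)
    (hc0 : ∀ p ∈ U, 0 ≤ c p) (hc1 : ∀ p ∈ U, c p ≤ 1) (N : ℕ) (hN : ∑ p ∈ U, c p ≤ N) :
    ∃ S ⊆ U, S.card ≤ N ∧ ∑ p ∈ U, c p * A p ≤ ∑ p ∈ S, A p := by
  classical
  rcases le_total U.card N with h | h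
  · refine ⟨U, subset_rfl, h, sum_le_sum fun p hp => ?_⟩
    nlinarith [hA p hp, hc1 p hp, hc0 p hp]
  · -- maximal subset of size N
    obtain ⟨S, hS, hmax⟩ := exists_max_image (U.powersetCard N) (fun S => ∑ p ∈ S, A p)
      (powersetCard_nonempty.2 h)
    rw [mem_powersetCard] at hS
    have hexch : ∀ p ∈ S, ∀ q ∈ U \ S, A q ≤ A p := by
      intro p hp q hq
      rw [mem_sdiff] at hq
      have hqS : q ∉ S.erase p := fun h' => hq.2 (mem_of_mem_erase h')
      have h1 := hmax (insert q (S.erase p)) (by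
        rw [mem_powersetCard]
        refine ⟨?_, ?_⟩
        · intro r hr
          rw [mem_insert] at hr
          rcases hr with rfl | hr
          · exact hq.1
          · exact hS.1 (mem_of_mem_erase hr)
        · rw [card_insert_of_notMem hqS, card_erase_of_mem hp, hS.2]
          have : 0 < S.card := card_pos.2 ⟨p, hp⟩
          omega)
      rw [sum_insert hqS] at h1
      have h2 := add_sum_erase S A hp
      linarith
    refine ⟨S, hS.1, hS.2.le, ?_⟩
    -- threshold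
    obtain ⟨τ, hτ0, hτ1, hτ2⟩ : ∃ τ : ℝ, 0 ≤ τ ∧ (∀ p ∈ S, τ ≤ A p) ∧ (∀ q ∈ U \ S, A q ≤ τ) := by
      rcases (U \ S).eq_empty_or_nonempty with he | hne
      · refine ⟨0, le_rfl, fun p hp => hA p (hS.1 hp), ?_⟩
        intro q hq
        rw [he] at hq
        exact absurd hq (notMem_empty q)
      · obtain ⟨q0, hq0, hq0max⟩ := exists_max_image (U \ S) A hne
        exact ⟨A q0, hA q0 (mem_sdiff.1 hq0).1, fun p hp => hexch p hp q0 hq0,
          fun q hq => hq0max q hq⟩
    have hsplit : ∀ f : κ → ℝ, ∑ p ∈ U, f p = ∑ p ∈ S, f p + ∑ p ∈ U \ S, f p := by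
      intro f
      rw [add_comm, sum_sdiff hS.1]
    rw [hsplit] at hN ⊢
    have e1 : ∑ p ∈ S, c p * A p ≤ ∑ p ∈ S, A p + τ * ∑ p ∈ S, (c p - 1) := by
      rw [mul_sum, ← sum_add_distrib]
      apply sum_le_sum
      intro p hp
      have h1 := hτ1 p hp
      have h2 := hc1 p (hS.1 hp)
      nlinarith
    have e2 : ∑ p ∈ U \ S, c p * A p ≤ τ * ∑ p ∈ U \ S, c p := by
      rw [mul_sum]
      apply sum_le_sum
      intro p hp
      have h1 := hτ2 p hp
      have h2 := hc0 p (mem_sdiff.1 hp).1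
      nlinarith
    have e3 : ∑ p ∈ S, (c p - 1) = ∑ p ∈ S, c p - N := by
      rw [sum_sub_distrib, sum_const, hS.2]
      simp
    rw [e3] at e1
    have e4 : τ * (∑ p ∈ S, c p - N) + τ * ∑ p ∈ U \ S, c p ≤ 0 := by
      rw [← mul_add]
      exact mul_nonpos_of_nonneg_of_nonpos hτ0 (by linarith)
    linarith

end Pool.Agent.H.MP_4d2320_co
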