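import Pool.Agent.H.MP_4d2320_co.Core
import Pool.Agent.H.MP_4d2320_co.Knap

set_option autoImplicit false

namespace Pool.Agent.H.MP_4d2320_co

open Finset

variable {n : ℕ}

/-- squared distance attached to a family of vectors -/
def dd (s : Finset (Fin n)) (w : Fin n → Fin n → ℝ) (a b : Fin n) : ℝ :=
  ∑ i ∈ s, (w i a - w i b) ^ 2

/-- Gram-type matrix of a subfamily. -/
def gr (s : Finset (Fin n)) (w : Fin n → Fin n → ℝ) (a b : Fin n) : ℝ :=
  ∑ i ∈ s, w i a * w i b

theorem gr_quad (s : Finset (Fin n)) (w : Fin n → Fin n → ℝ) (x : Fin n → ℝ) :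
    ∑ a, ∑ b, gr s w a b * (x a * x b) = ∑ i ∈ s, (∑ a, w i a * x a) ^ 2 := by
  have e : ∀ i, (∑ a, w i a * x a) ^ 2 = ∑ a, ∑ b, w i a * w i b * (x a * x b) := by
    intro i
    rw [pow_two, sum_mul_sum]
    apply sum_congr rfl; intro a _
    apply sum_congr rfl; intro b _
    ring
  simp only [e, gr, sum_mul]
  rw [sum_comm (s := s)]
  apply sum_congr rfl; intro a _
  rw [sum_comm]

theorem gr_contr (s : Finset (Fin n)) (w : Fin n → Fin n → ℝ)
    (hw : ∀ x : Fin n → ℝ, ∑ i, (∑ a, w i a * x a) ^ 2 ≤ ∑ a, x a ^ 2) : Contr (gr s w) := by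
  refine ⟨?_, ?_, ?_⟩
  · intro a b
    simp only [gr]
    exact sum_congr rfl fun i _ => mul_comm _ _
  · intro x
    rw [gr_quad]
    exact sum_nonneg fun i _ => sq_nonneg _
  · intro x
    rw [gr_quad]
    refine le_trans ?_ (hw x)
    exact sum_le_sum_of_subset_of_nonneg (subset_univ s) fun i _ _ => sq_nonneg _

theorem gr_dist (s : Finset (Fin n)) (w : Fin n → Fin n → ℝ) (a b : Fin n) :
    gr s w a a + gr s w b b - 1 - 2 * gr s w a b = dd s w a b - 1 := by
  simp only [gr, dd]
  have : ∑ i ∈ s, (w i a - w i b) ^ 2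
      = ∑ i ∈ s, w i a * w i a + ∑ i ∈ s, w i b * w i b - 2 * ∑ i ∈ s, w i a * w i b := by
    rw [mul_sum, ← sum_add_distrib, ← sum_sub_distrib]
    apply sum_congr rfl; intro i _; ring
  rw [this]; ring

/-- orthonormal basis data -/
structure ONB (v : Fin n → Fin n → ℝ) : Prop where
  orth : ∀ i j, ∑ a, v i a * v j a = if i = j then 1 else 0
  comp : ∀ a b, ∑ i, v i a * v i b = if a = b then 1 else 0

theorem ONB.parseval {v : Fin n → Fin n → ℝ} (h : ONB v) (x : Fin n → ℝ) :
    ∑ i, (∑ a, v i a * x a) ^ 2 = ∑ a, x a ^ 2 := by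
  rw [← gr_quad univ v x]
  simp only [gr, h.comp]
  apply sum_congr rfl; intro a _
  simp [pow_two]

/-- The first bound. -/
theorem ONB.bound1 {v : Fin n → Fin n → ℝ} (h : ONB v) (s : Finset (Fin n)) :
    ∑ a, ∑ b, max 0 (dd s v a b - 1) ≤ (s.card : ℝ) ^ 2 + 3 * s.card := by
  have hC := gr_contr s v (fun x => (h.parseval x).le)
  have h1 := hC.main'
  simp only [gr_dist] at h1
  have h2 : ∑ a, gr s v a a = s.card := by
    simp only [gr]
    rw [sum_comm]
    have : ∀ i ∈ s, ∑ a, v i a * v i a = 1 := by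
      intro i _
      rw [h.orth i i, if_pos rfl]
    rw [sum_congr rfl this]
    simp
  rw [h2] at h1
  exact h1

/-- centred vector -/
noncomputable def cen (v : Fin n → Fin n → ℝ) (i a : Fin n) : ℝ := v i a - (∑ b, v i b) / n

theorem cen_sum (hn : 0 < n) (v : Fin n → Fin n → ℝ) (i : Fin n) : ∑ a, cen v i a = 0 := by
  simp only [cen, sum_sub_distrib, sum_const, card_univ, Fintype.card_fin, nsmul_eq_mul]
  have : (n : ℝ) ≠ 0 := by positivity
  field_simp
  ring

theorem dd_cen (s : Finset (Fin n)) (v : Fin n → Fin n → ℝ) (a b : Fin n) :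
    dd s (cen v) a b = dd s v a b := by
  simp only [dd, cen]
  apply sum_congr rfl; intro i _; ring

theorem ONB.cen_contr (hn : 0 < n) {v : Fin n → Fin n → ℝ} (h : ONB v) (x : Fin n → ℝ) :
    ∑ i, (∑ a, cen v i a * x a) ^ 2 = ∑ a, x a ^ 2 - (∑ a, x a) ^ 2 / n := by
  have hn' : (n : ℝ) ≠ 0 := by positivity
  have e : ∀ i, ∑ a, cen v i a * x a = ∑ a, v i a * (x a - (∑ b, x b) / n) := by
    intro i
    simp only [cen, sub_mul, mul_sub, sum_sub_distrib]
    congr 1
    rw [← mul_sum, ← sum_mul]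
    ring
  simp only [e]
  rw [h.parseval]
  have e2 : ∀ a, (x a - (∑ b, x b) / n) ^ 2
      = x a ^ 2 - 2 * ((∑ b, x b) / n) * x a + ((∑ b, x b) / n) ^ 2 := by
    intro a; ring
  simp only [e2, sum_add_distrib, sum_sub_distrib, ← mul_sum, sum_const, card_univ,
    Fintype.card_fin, nsmul_eq_mul]
  field_simp
  ring

/-- The second bound. -/
theorem ONB.bound2 (hn : 0 < n) {v : Fin n → Fin n → ℝ} (h : ONB v) (s : Finset (Fin n))
    (hs : 1 ≤ s.card) :
    ∑ a, ∑ b, max 0 (dd s v a b - 1) ≤ (s.card : ℝ) ^ 2 - s.card + 2 * (n - 1) := by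
  have hn' : (n : ℝ) ≠ 0 := by positivity
  have hnpos : (0 : ℝ) < n := by positivity
  have hC := gr_contr sᶜ (cen v) (fun x => by
    rw [h.cen_contr hn x]
    have : 0 ≤ (∑ a, x a) ^ 2 / n := by positivity
    linarith)
  have h1 := hC.main'
  simp only [gr_dist, dd_cen] at h1
  -- traces
  have hall : ∑ i, ∑ a, cen v i a ^ 2 = n - 1 := by
    rw [sum_comm]
    have : ∀ a : Fin n, ∑ i, cen v i a ^ 2 = 1 - 1 / n := by
      intro a
      have := h.cen_contr hn (fun b => if b = a then 1 else 0)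
      simp only [mul_ite, mul_one, mul_zero, sum_ite_eq', mem_univ, if_true] at this
      rw [this]
      simp
    simp only [this, sum_const, card_univ, Fintype.card_fin, nsmul_eq_mul]
    field_simp
  set κ : ℝ := ∑ i ∈ s, ∑ a, cen v i a ^ 2 with hκ
  have hκ0 : 0 ≤ κ := sum_nonneg fun i _ => sum_nonneg fun a _ => sq_nonneg _
  have hκ1 : κ ≤ s.card := by
    have : ∀ i ∈ s, ∑ a, cen v i a ^ 2 ≤ 1 := by
      intro i _
      have e : ∀ a, cen v i a ^ 2 = v i a * v i a - 2 * ((∑ b, v i b) / n) * v i a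
          + ((∑ b, v i b) / n) ^ 2 := by
        intro a; simp only [cen]; ring
      simp only [e, sum_add_distrib, sum_sub_distrib, ← mul_sum, sum_const, card_univ,
        Fintype.card_fin, nsmul_eq_mul]
      rw [h.orth i i, if_pos rfl]
      have h5 : 0 ≤ (∑ b, v i b) ^ 2 / n := by positivity
      have h6 : (n : ℝ) * ((∑ b, v i b) / n) ^ 2 = (∑ b, v i b) ^ 2 / n := by
        field_simp
      have h7 : 2 * ((∑ b, v i b) / n) * ∑ b, v i b = 2 * ((∑ b, v i b) ^ 2 / n) := by
        field_simp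
      rw [h6, h7]
      linarith
    have h8 := sum_le_sum this
    simpa using h8
  have htr : ∑ a, gr sᶜ (cen v) a a = n - 1 - κ := by
    simp only [gr]
    rw [sum_comm]
    have h9 : ∑ i ∈ sᶜ, ∑ a, cen v i a * cen v i a + κ = n - 1 := by
      rw [hκ, ← hall, add_comm, ← sum_add_sum_compl s]
      congr 1
      apply sum_congr rfl; intro i _
      apply sum_congr rfl; intro a _
      ring
    linarith
  rw [htr] at h1
  -- sum of all distances
  have hdist : ∑ a, ∑ b, dd s v a b = 2 * n * κ := by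
    have e : ∀ a b, dd s v a b = ∑ i ∈ s, (cen v i a ^ 2 + cen v i b ^ 2
        - 2 * (cen v i a * cen v i b)) := by
      intro a b
      rw [← dd_cen]
      simp only [dd]
      apply sum_congr rfl; intro i _; ring
    simp only [e]
    have e2 : ∑ a, ∑ b, ∑ i ∈ s, (cen v i a ^ 2 + cen v i b ^ 2 - 2 * (cen v i a * cen v i b))
        = ∑ i ∈ s, ∑ a, ∑ b, (cen v i a ^ 2 + cen v i b ^ 2 - 2 * (cen v i a * cen v i b)) := by
      rw [sum_comm (s := s)]
      apply sum_congr rfl; intro a _
      rw [sum_comm]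
    rw [e2, hκ, mul_sum]
    apply sum_congr rfl; intro i _
    simp only [sum_add_distrib, sum_sub_distrib, ← mul_sum, sum_const, card_univ,
      Fintype.card_fin, nsmul_eq_mul, cen_sum hn, mul_zero, sum_const_zero]
    ring
  -- relation
  have hrel : ∀ a b : Fin n, a ≠ b → dd sᶜ v a b = 2 - dd s v a b := by
    intro a b hab
    have : ∑ i, (v i a - v i b) ^ 2 = 2 := by
      have e : ∀ i, (v i a - v i b) ^ 2 = v i a * v i a + v i b * v i b - 2 * (v i a * v i b) := by
        intro i; ring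
      simp only [e, sum_add_distrib, sum_sub_distrib, ← mul_sum, h.comp]
      simp [hab]
      norm_num
    rw [← sum_add_sum_compl s] at this
    simp only [dd]
    linarith
  have hterm : ∀ a b : Fin n, max 0 (dd s v a b - 1)
      = max 0 (dd sᶜ v a b - 1) + dd s v a b - (if a = b then 0 else 1) := by
    intro a b
    by_cases hab : a = b
    · subst hab
      simp [dd]
    · rw [if_neg hab, hrel a b hab]
      rcases le_total (dd s v a b) 1 with h' | h'
      · rw [max_eq_left (by linarith), max_eq_right (by linarith)]; ring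
      · rw [max_eq_right (by linarith), max_eq_left (by linarith)]; ring
  have hsum : ∑ a, ∑ b, max 0 (dd s v a b - 1)
      = ∑ a, ∑ b, max 0 (dd sᶜ v a b - 1) + 2 * n * κ - n * (n - 1) := by
    have e : ∑ a : Fin n, ∑ b : Fin n, (if a = b then (0 : ℝ) else 1) = n * (n - 1) := by
      have : ∀ a : Fin n, ∑ b : Fin n, (if a = b then (0 : ℝ) else 1) = n - 1 := by
        intro a
        have e3 : ∀ b : Fin n, (if a = b then (0 : ℝ) else 1) = 1 - (if a = b then 1 else 0) := by
          intro b; split_ifs <;> norm_num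
        simp only [e3, sum_sub_distrib, sum_const, card_univ, Fintype.card_fin, nsmul_eq_mul,
          sum_ite_eq, mem_univ, if_true]
        ring
      simp only [this, sum_const, card_univ, Fintype.card_fin, nsmul_eq_mul]
    rw [← hdist, ← e, ← sum_add_distrib, ← sum_sub_distrib]
    apply sum_congr rfl; intro a _
    rw [← sum_add_distrib, ← sum_sub_distrib]
    apply sum_congr rfl; intro b _
    exact hterm a b
  rw [hsum]
  have hk1 : (1 : ℝ) ≤ s.card := by exact_mod_cast hs
  have hfin : κ ^ 2 - κ ≤ (s.card : ℝ) ^ 2 - s.card := by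
    have : 0 ≤ ((s.card : ℝ) - κ) * (s.card + κ - 1) :=
      mul_nonneg (by linarith) (by linarith)
    nlinarith
  nlinarith

/-- Sum over ordered pairs of a symmetric function vanishing on the diagonal. -/
theorem sum_pairs (f : Fin n → Fin n → ℝ) (hsym : ∀ a b, f a b = f b a) (hd : ∀ a, f a a = 0) :
    ∑ a, ∑ b, f a b = 2 * ∑ p ∈ univ.filter (fun p : Fin n × Fin n => p.1 < p.2), f p.1 p.2 := by
  have e1 : ∑ p ∈ univ.filter (fun p : Fin n × Fin n => p.1 < p.2), f p.1 p.2
      = ∑ a, ∑ b, if a < b then f a b else 0 := by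
    rw [sum_filter, ← univ_product_univ, sum_product]
  have e2 : ∑ a, ∑ b, (if a < b then f a b else 0) = ∑ a, ∑ b, (if b < a then f a b else 0) := by
    rw [sum_comm]
    apply sum_congr rfl; intro a _
    apply sum_congr rfl; intro b _
    rw [hsym]
  rw [e1, two_mul]
  nth_rewrite 2 [e2]
  rw [← sum_add_distrib]
  apply sum_congr rfl; intro a _
  rw [← sum_add_distrib]
  apply sum_congr rfl; intro b _
  rcases lt_trichotomy a b with h | h | h
  · rw [if_pos h, if_neg (lt_asymm h), add_zero]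
  · subst h
    rw [if_neg (lt_irrefl a), hd]; simp
  · rw [if_neg (lt_asymm h), if_pos h, zero_add]

/-- Combination: for a nonnegative symmetric weight matrix. -/
theorem ONB.final {v : Fin n → Fin n → ℝ} (h : ONB v) (A : Fin n → Fin n → ℝ)
    (hA : ∀ a b, 0 ≤ A a b) (hsym : ∀ a b, A a b = A b a) (s : Finset (Fin n)) (hs : 1 ≤ s.card)
    (hsn : s.card ≤ n - 1) :
    ∃ P : Finset (Fin n × Fin n), P.card ≤ (s.card + 1).choose 2 + min s.card (n - 1 - s.card) ∧
      (∀ p ∈ P, p.1 < p.2) ∧
      (1 / 2 : ℝ) * ∑ a, ∑ b, A a b * dd s v a b ≤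
        (∑ i, ∑ j, if i < j then A i j else 0) + ∑ p ∈ P, A p.1 p.2 := by
  classical
  set U := univ.filter (fun p : Fin n × Fin n => p.1 < p.2) with hU
  have hn : 0 < n := by omega
  have hddsym : ∀ a b, dd s v a b = dd s v b a := by
    intro a b; simp only [dd]; apply sum_congr rfl; intro i _; ring
  have hdd0 : ∀ a, dd s v a a = 0 := by intro a; simp [dd]
  have hdd2 : ∀ a b, dd s v a b ≤ 2 := by
    intro a b
    have h1 : dd s v a b ≤ ∑ i, (v i a - v i b) ^ 2 :=
      sum_le_sum_of_subset_of_nonneg (subset_univ s) fun i _ _ => sq_nonneg _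
    refine h1.trans ?_
    have e : ∀ i, (v i a - v i b) ^ 2 = v i a * v i a + v i b * v i b - 2 * (v i a * v i b) := by
      intro i; ring
    simp only [e, sum_add_distrib, sum_sub_distrib, ← mul_sum, h.comp]
    split_ifs <;> norm_num
  have hsum := sum_pairs (fun a b => max 0 (dd s v a b - 1)) (fun a b => by rw [hddsym])
    (fun a => by rw [hdd0]; norm_num)
  have hb1 := h.bound1 s
  have hb2 := h.bound2 hn s hs
  rw [hsum] at hb1 hb2
  have hN : ∑ p ∈ U, max 0 (dd s v p.1 p.2 - 1)
      ≤ (((s.card + 1).choose 2 + min s.card (n - 1 - s.card) : ℕ) : ℝ) := by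
    have hch : (((s.card + 1).choose 2 : ℕ) : ℝ) = (s.card : ℝ) * (s.card + 1) / 2 := by
      rw [Nat.cast_choose_two]
      push_cast
      ring
    push_cast
    rw [hch]
    rcases le_total s.card (n - 1 - s.card) with h' | h'
    · have h'' : (s.card : ℝ) ≤ ((n - 1 - s.card : ℕ) : ℝ) := by exact_mod_cast h'
      rw [min_eq_left h'']
      linarith
    · have h'' : ((n - 1 - s.card : ℕ) : ℝ) ≤ (s.card : ℝ) := by exact_mod_cast h'
      rw [min_eq_right h'']
      have e : ((n - 1 - s.card : ℕ) : ℝ) = n - 1 - s.card := by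
        rw [Nat.cast_sub hsn, Nat.cast_sub (by omega : 1 ≤ n)]
        push_cast; ring
      rw [e]
      linarith
  obtain ⟨S, hSU, hScard, hSsum⟩ := knap U (fun p => A p.1 p.2)
    (fun p => max 0 (dd s v p.1 p.2 - 1)) (fun p _ => hA _ _) (fun p _ => le_max_left _ _)
    (fun p _ => max_le (by norm_num) (by linarith [hdd2 p.1 p.2])) _ hN
  refine ⟨S, hScard, fun p hp => ?_, ?_⟩
  · have := hSU hp
    rw [hU, mem_filter] at this
    exact this.2
  · rw [sum_pairs (fun a b => A a b * dd s v a b) (fun a b => by rw [hddsym, hsym])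
      (fun a => by rw [hdd0, mul_zero])]
    have e1 : ∑ i, ∑ j, (if i < j then A i j else 0) = ∑ p ∈ U, A p.1 p.2 := by
      rw [hU, sum_filter, ← univ_product_univ, sum_product]
    rw [e1, ← mul_assoc]
    norm_num
    refine le_trans ?_ (add_le_add_right hSsum _)
    rw [← sum_add_distrib]
    apply sum_le_sum
    intro p _
    have h1 : dd s v p.1 p.2 - 1 ≤ max 0 (dd s v p.1 p.2 - 1) := le_max_right _ _
    nlinarith [hA p.1 p.2]

end Pool.Agent.H.MP_4d2320_co
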