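import Mathlib

set_option autoImplicit false

namespace Pool.Agent.H.MP_4d2320_co

open Finset

variable {V κ : Type*} [Fintype V] [DecidableEq V] [Fintype κ] [DecidableEq κ]

/-- indicator vectors of classes -/
def ev (a : Option κ) (j : κ) : ℝ := if a = some j then 1 else 0

/-- the matrix of class sums -/
def Ym (y : V → κ → ℝ) (c : V → Option κ) : Matrix κ κ ℝ :=
  Matrix.of fun j t => ∑ u, ev (c u) j * y u t

omit [Fintype κ] [DecidableEq V] in
theorem Ym_apply (y : V → κ → ℝ) (c : V → Option κ) (j t : κ) :
    Ym y c j t = ∑ u, ev (c u) j * y u t := rfl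

omit [DecidableEq V] in
/-- Some partition has a nonzero determinant. -/
theorem exists_det_ne (y : V → κ → ℝ)
    (horth : ∀ s t, ∑ u, y u s * y u t = if s = t then 1 else 0) :
    ∃ c : V → Option κ, (Ym y c).det ≠ 0 := by
  classical
  have h1 : (Matrix.of fun s t => ∑ u, y u s * y u t : Matrix κ κ ℝ) = 1 := by
    ext s t
    rw [Matrix.of_apply, horth, Matrix.one_apply]
  have h2 : (Matrix.of fun s t => ∑ u, y u s * y u t : Matrix κ κ ℝ)
      = fun s => ∑ u, y u s • y u := by
    funext s t
    simp [Matrix.of_apply, Finset.sum_apply]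
  have h3 : Matrix.detRowAlternating (R := ℝ) (fun s : κ => ∑ u, y u s • y u)
      = ∑ r : κ → V, Matrix.detRowAlternating (R := ℝ) (fun s => y (r s) s • y (r s)) :=
    (Matrix.detRowAlternating (R := ℝ) (n := κ)).toMultilinearMap.map_sum
      (fun s (u : V) => y u s • y u)
  have h4 : Matrix.detRowAlternating (R := ℝ) (fun s : κ => ∑ u, y u s • y u) = 1 := by
    rw [← h2, h1]
    exact Matrix.det_one
  obtain ⟨r, hr⟩ : ∃ r : κ → V, Matrix.det (Matrix.of fun s => y (r s)) ≠ 0 := by
    by_contra hcon
    push Not at hcon
    rw [h3] at h4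
    have h5 : ∀ r : κ → V, Matrix.detRowAlternating (R := ℝ) (fun s => y (r s) s • y (r s)) = 0 := by
      intro r
      rw [(Matrix.detRowAlternating (R := ℝ) (n := κ)).map_smul_univ]
      have : Matrix.detRowAlternating (R := ℝ) (fun s => y (r s)) = 0 := hcon r
      rw [this, smul_zero]
    simp only [h5, sum_const_zero] at h4
    exact zero_ne_one h4
  have hinj : Function.Injective r := by
    intro i j hij
    by_contra hne
    have hrow : (Matrix.of fun s => y (r s) : Matrix κ κ ℝ) i
        = (Matrix.of fun s => y (r s) : Matrix κ κ ℝ) j := by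
      show y (r i) = y (r j)
      rw [hij]
    exact hr (Matrix.det_zero_of_row_eq hne hrow)
  refine ⟨fun u => if h : ∃ s, r s = u then some h.choose else none, ?_⟩
  have h6 : Ym y (fun u => if h : ∃ s, r s = u then some h.choose else none)
      = Matrix.of fun s => y (r s) := by
    ext j t
    rw [Ym_apply, Matrix.of_apply, sum_eq_single (r j)]
    · have hex : ∃ s, r s = r j := ⟨j, rfl⟩
      have : hex.choose = j := hinj hex.choose_spec
      simp only [dif_pos hex, ev, this, if_true, one_mul]
    · intro u _ hu
      have : ev (if h : ∃ s, r s = u then some h.choose else none) j = 0 := by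
        unfold ev
        rw [if_neg]
        intro heq
        by_cases h : ∃ s, r s = u
        · rw [dif_pos h] at heq
          have h7 := h.choose_spec
          rw [Option.some.inj heq] at h7
          exact hu h7.symm
        · rw [dif_neg h] at heq
          cases heq
      rw [this, zero_mul]
    · intro h; exact absurd (mem_univ _) h
  rw [h6]
  exact hr

/-- Main lemma: there is an oblique projection onto the span of the columns of `y`
whose rows satisfy `0 ≤ Π u u - Π u v ≤ 1`. -/
theorem exists_proj (y : V → κ → ℝ) (hsum : ∀ t, ∑ u, y u t = 0)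
    (horth : ∀ s t, ∑ u, y u s * y u t = if s = t then 1 else 0) :
    ∃ Q : V → V → ℝ, (∀ u v, 0 ≤ Q u u - Q u v) ∧ (∀ u v, Q u u - Q u v ≤ 1) ∧
      (∑ u, ∑ v, (Q u u - Q u v) * (Q v v - Q v u)
        = (Fintype.card κ : ℝ) * (Fintype.card κ + 1)) ∧
      (∀ (L : V → V → ℝ) (lam : κ → ℝ), (∀ v t, ∑ u, L u v * y u t = lam t * y v t) →
        ∑ u, ∑ v, L u v * Q u v = ∑ t, lam t) := by
  classical
  obtain ⟨c, hc⟩ := Finite.exists_max (fun c : V → Option κ => |(Ym y c).det|)
  obtain ⟨c0, hc0⟩ := exists_det_ne y horth
  set Y := Ym y c with hY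
  have hD : Y.det ≠ 0 := by
    have h1 := hc c0
    have h2 : 0 < |(Ym y c0).det| := abs_pos.2 hc0
    exact abs_pos.1 (lt_of_lt_of_le h2 h1)
  have hDu : IsUnit Y.det := isUnit_iff_ne_zero.2 hD
  -- coordinates
  set g : V → κ → ℝ := fun u j => ∑ t, y u t * Y⁻¹ t j with hg
  set G : V → Option κ → ℝ := fun u a => ∑ j, g u j * ev a j with hG
  have hG0 : ∀ u, G u none = 0 := by
    intro u
    simp [hG, ev]
  have hG1 : ∀ u j, G u (some j) = g u j := by
    intro u j
    simp only [hG, ev, Option.some.injEq]
    rw [sum_eq_single j]
    · simp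
    · intro b _ hb
      rw [if_neg (Ne.symm hb), mul_zero]
    · intro h; exact absurd (mem_univ _) h
  -- nonnegativity from maximality
  have hnn : ∀ u b, 0 ≤ G u (c u) - G u b := by
    intro u b
    have h1 : Ym y (Function.update c u b) = Y
        + Matrix.replicateCol Unit (fun j => ev b j - ev (c u) j)
          * Matrix.replicateRow Unit (fun t => y u t) := by
      ext j t
      rw [Matrix.add_apply, Matrix.mul_apply, hY, Ym_apply, Ym_apply]
      simp only [Finset.univ_unique, sum_singleton, Matrix.replicateCol_apply,
        Matrix.replicateRow_apply]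
      rw [← add_sum_erase _ _ (mem_univ u), ← add_sum_erase (univ) (fun w => ev (c w) j * y w t)
        (mem_univ u)]
      have h2 : ∑ w ∈ univ.erase u, ev (Function.update c u b w) j * y w t
          = ∑ w ∈ univ.erase u, ev (c w) j * y w t := by
        apply sum_congr rfl
        intro w hw
        rw [Function.update_of_ne (ne_of_mem_erase hw)]
      rw [h2, Function.update_self]
      ring
    have h3 := Matrix.det_add_replicateCol_mul_replicateRow (ι := Unit) hDu
      (fun j => ev b j - ev (c u) j) (fun t => y u t)
    rw [← h1] at h3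
    have h4 : (1 + Matrix.replicateRow Unit (fun t => y u t) * Y⁻¹
        * Matrix.replicateCol Unit (fun j => ev b j - ev (c u) j)).det
        = 1 - (G u (c u) - G u b) := by
      rw [Matrix.det_unique, Matrix.add_apply, Matrix.one_apply_eq, Matrix.mul_apply]
      simp only [Matrix.replicateCol_apply, Matrix.mul_apply, Matrix.replicateRow_apply]
      have h5 : ∑ j, (∑ t, y u t * Y⁻¹ t j) * (ev b j - ev (c u) j)
          = G u b - G u (c u) := by
        simp only [hG, hg, mul_sub, sum_sub_distrib]
      rw [h5]
      ring
    rw [h4] at h3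
    have h6 := hc (Function.update c u b)
    rw [h3, abs_mul] at h6
    have h7 : |1 - (G u (c u) - G u b)| ≤ 1 := by
      by_contra hcon
      push Not at hcon
      have h8 : |Y.det| * 1 < |Y.det| * |1 - (G u (c u) - G u b)| :=
        mul_lt_mul_of_pos_left hcon (abs_pos.2 hD)
      rw [mul_one] at h8
      exact absurd h6 (not_le.2 h8)
    have := (abs_le.1 h7).2
    linarith
  -- class sums
  have hcs : ∀ i l : κ, ∑ u, ev (c u) i * g u l = if i = l then 1 else 0 := by
    intro i l
    have h1 : (Y * Y⁻¹) i l = if i = l then 1 else 0 := by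
      rw [Matrix.mul_nonsing_inv _ hDu, Matrix.one_apply]
    rw [Matrix.mul_apply] at h1
    rw [← h1]
    simp only [hg, hY, Ym_apply, mul_sum, sum_mul]
    rw [sum_comm]
    apply sum_congr rfl; intro t _
    apply sum_congr rfl; intro u _
    ring
  have hgs : ∀ l : κ, ∑ u, g u l = 0 := by
    intro l
    simp only [hg]
    rw [sum_comm]
    apply sum_eq_zero
    intro t _
    rw [← sum_mul, hsum, zero_mul]
  have hind_some : ∀ (a : Option κ) (i : κ), (if a = some i then (1 : ℝ) else 0) = ev a i :=
    fun a i => rfl
  have hind_none : ∀ (a : Option κ), (if a = none then (1 : ℝ) else 0) = 1 - ∑ i, ev a i := by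
    intro a
    cases a with
    | none => simp [ev]
    | some j => simp [ev]
  have hclass : ∀ (a : Option κ) (l : κ), ∑ u, (if c u = a then (1 : ℝ) else 0) * g u l
      = (if a = some l then 1 else 0) - (if a = none then 1 else 0) := by
    intro a l
    cases a with
    | none =>
      simp only [hind_none, sub_mul, one_mul, sum_sub_distrib, hgs, sum_mul]
      rw [sum_comm]
      simp only [hcs]
      simp [ev]
    | some i =>
      simp only [hind_some, hcs]
      simp [ev]
  have hcl2 : ∀ a b : Option κ, a ≠ b →
      ∑ u, (if c u = a then (1 : ℝ) else 0) * (G u a - G u b) = 1 := by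
    intro a b hab
    have e : ∀ b : Option κ, ∑ u, (if c u = a then (1 : ℝ) else 0) * G u b
        = match b with
          | none => 0
          | some l => (if a = some l then 1 else 0) - (if a = none then 1 else 0) := by
      intro b
      cases b with
      | none => simp [hG0]
      | some l => simp only [hG1]; exact hclass a l
    simp only [mul_sub, sum_sub_distrib]
    rw [e a, e b]
    cases a with
    | none =>
      cases b with
      | none => exact absurd rfl hab
      | some l => simp
    | some i =>
      cases b with
      | none => simp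
      | some l =>
        have : i ≠ l := fun h => hab (by rw [h])
        simp [this]
  refine ⟨fun u v => G u (c v), fun u v => hnn u (c v), ?_, ?_, ?_⟩
  · -- upper bound
    intro u v
    show G u (c u) - G u (c v) ≤ 1
    by_cases huv : c u = c v
    · rw [huv, sub_self]; exact zero_le_one
    · have h1 := hcl2 (c u) (c v) huv
      have h2 : ∀ w ∈ (univ : Finset V), 0 ≤ (if c w = c u then (1 : ℝ) else 0)
          * (G w (c u) - G w (c v)) := by
        intro w _
        by_cases hw : c w = c u
        · rw [if_pos hw, one_mul, ← hw]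
          exact hnn w (c v)
        · rw [if_neg hw, zero_mul]
      have h3 := single_le_sum h2 (mem_univ u)
      rw [h1, if_pos rfl, one_mul] at h3
      exact h3
  · -- total sum of products
    have h1 : ∀ u v, (G u (c u) - G u (c v)) * (G v (c v) - G v (c u))
        = ∑ a, ∑ b, (if a = b then 0 else
            ((if c u = a then (1 : ℝ) else 0) * (G u a - G u b))
              * ((if c v = b then (1 : ℝ) else 0) * (G v b - G v a))) := by
      intro u v
      rw [sum_eq_single (c u)]
      · rw [sum_eq_single (c v)]
        · by_cases h : c u = c v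
          · rw [if_pos h, h]; ring
          · rw [if_neg h, if_pos rfl, if_pos rfl]; ring
        · intro b _ hb
          by_cases h : c u = b
          · rw [if_pos h]
          · rw [if_neg h, if_neg (Ne.symm hb)]; ring
        · intro h; exact absurd (mem_univ _) h
      · intro a _ ha
        apply sum_eq_zero
        intro b _
        by_cases h : a = b
        · rw [if_pos h]
        · rw [if_neg h, if_neg (Ne.symm ha)]; ring
      · intro h; exact absurd (mem_univ _) h
    have h2 : ∑ u, ∑ v, (G u (c u) - G u (c v)) * (G v (c v) - G v (c u))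
        = ∑ a : Option κ, ∑ b : Option κ, (if a = b then (0 : ℝ) else 1) := by
      simp only [h1]
      have h3 : ∀ a b : Option κ, ∑ u, ∑ v, (if a = b then (0 : ℝ) else
            ((if c u = a then (1 : ℝ) else 0) * (G u a - G u b))
              * ((if c v = b then (1 : ℝ) else 0) * (G v b - G v a)))
          = if a = b then (0 : ℝ) else 1 := by
        intro a b
        by_cases hab : a = b
        · simp [hab]
        · simp only [if_neg hab]
          rw [← sum_mul_sum, hcl2 a b hab, hcl2 b a (Ne.symm hab), one_mul]
      have h4 : ∀ F : V → V → Option κ → Option κ → ℝ,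
          ∑ u, ∑ v, ∑ a, ∑ b, F u v a b = ∑ a, ∑ b, ∑ u, ∑ v, F u v a b := by
        intro F
        calc ∑ u, ∑ v, ∑ a, ∑ b, F u v a b = ∑ u, ∑ a, ∑ v, ∑ b, F u v a b := by
              apply sum_congr rfl; intro u _; rw [sum_comm]
          _ = ∑ a, ∑ u, ∑ v, ∑ b, F u v a b := sum_comm
          _ = ∑ a, ∑ b, ∑ u, ∑ v, F u v a b := by
              apply sum_congr rfl; intro a _
              calc ∑ u, ∑ v, ∑ b, F u v a b = ∑ u, ∑ b, ∑ v, F u v a b := by
                    apply sum_congr rfl; intro u _; rw [sum_comm]
                _ = ∑ b, ∑ u, ∑ v, F u v a b := sum_comm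
      rw [h4]
      apply sum_congr rfl; intro a _
      apply sum_congr rfl; intro b _
      exact h3 a b
    rw [h2]
    have h5 : ∀ a : Option κ, ∑ b : Option κ, (if a = b then (0 : ℝ) else 1) = Fintype.card κ := by
      intro a
      have h6 : ∀ b : Option κ, (if a = b then (0 : ℝ) else 1) = 1 - (if a = b then 1 else 0) := by
        intro b; split_ifs <;> norm_num
      simp only [h6, sum_sub_distrib, sum_ite_eq, mem_univ, if_true, sum_const, card_univ,
        Fintype.card_option, nsmul_eq_mul]
      push_cast
      ring
    simp only [h5, sum_const, card_univ, Fintype.card_option, nsmul_eq_mul]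
    push_cast
    ring
  · -- trace formula
    intro L lam hL
    have h1 : ∀ t, ∑ j, Y⁻¹ t j * Y j t = 1 := by
      intro t
      have h2 : (Y⁻¹ * Y) t t = 1 := by
        rw [Matrix.nonsing_inv_mul _ hDu, Matrix.one_apply_eq]
      rw [Matrix.mul_apply] at h2
      exact h2
    have h3 : ∀ v, ∑ u, L u v * G u (c v) = ∑ j, ∑ t, lam t * y v t * Y⁻¹ t j * ev (c v) j := by
      intro v
      simp only [hG, hg, mul_sum, sum_mul]
      rw [sum_comm]
      apply sum_congr rfl; intro j _
      rw [sum_comm]
      apply sum_congr rfl; intro t _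
      rw [← hL v t, sum_mul, sum_mul]
      apply sum_congr rfl; intro u _
      ring
    show ∑ u, ∑ v, L u v * G u (c v) = ∑ t, lam t
    rw [sum_comm]
    simp only [h3]
    rw [sum_comm]
    have h4 : ∀ j, ∑ v, ∑ t, lam t * y v t * Y⁻¹ t j * ev (c v) j
        = ∑ t, lam t * (Y⁻¹ t j * Y j t) := by
      intro j
      rw [sum_comm]
      apply sum_congr rfl; intro t _
      rw [hY, Ym_apply, ← hY, mul_sum, mul_sum]
      apply sum_congr rfl; intro v _
      ring
    simp only [h4]
    rw [sum_comm]
    apply sum_congr rfl; intro t _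
    rw [← mul_sum, h1, mul_one]

end Pool.Agent.H.MP_4d2320_co
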